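import Pool.Agent.helper29.JZ.Spec

set_option autoImplicit false

open Finset Polynomial Module

namespace Pool.Agent.helper89.JZ

open Pool.Agent.helper29.JZ
open Pool.Agent.helper97.FP FP97

theorem jz_SWP : SWP_stmt := by
  intro h h' x y M i j
  unfold AH
  have hs : (Prod.swap ⁻¹' ((ZZ x y M : Finset (ℂ × ℂ)) : Set (ℂ × ℂ))) =
      ((ZZ y x (tr M) : Finset (ℂ × ℂ)) : Set (ℂ × ℂ)) := by
    ext ⟨a, b⟩
    simp only [Set.mem_preimage, Prod.swap_prod_mk, ZZ, tr, Finset.coe_image, Set.mem_image,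
      Finset.mem_coe, Prod.mk.injEq, Prod.exists, Finset.mem_image]
    constructor
    · rintro ⟨k, m, hk, h1, h2⟩
      exact ⟨m, k, ⟨k, m, hk, rfl, rfl⟩, h2, h1⟩
    · rintro ⟨m, k, ⟨k', m', hk, h3, h4⟩, h1, h2⟩
      subst h3 h4
      exact ⟨k', m', hk, h2, h1⟩
  rw [← hs, finrank_DV_swap, mul_comm]

end Pool.Agent.helper89.JZ
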